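import Mathlib

set_option autoImplicit false

/-!
# Milman's moduli and their orthogonal versions
-/

namespace Pool.Agent.R279.Mil

universe u

variable (X : Type u) [NormedAddCommGroup X] [NormedSpace ℝ X]

/-- `y` is quasi-orthogonal to `x`: some norm-one functional `p` has `p x = 1` and `p y = 0`
(here `x` will be a unit vector) -/
def QO {X : Type u} [NormedAddCommGroup X] [NormedSpace ℝ X] (y x : X) : Prop :=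
  ∃ p : StrongDual ℝ X, ‖p‖ = 1 ∧ p x = 1 ∧ p y = 0

/-- the modulus `ζ⁻` -/
noncomputable def zetaM (ε : ℝ) : ℝ :=
  sInf {r : ℝ | ∃ x y : X, ‖x‖ = 1 ∧ ‖y‖ = 1 ∧ QO y x ∧ r = ‖x + ε • y‖}

/-- the modulus `ζ⁺` -/
noncomputable def zetaP (ε : ℝ) : ℝ :=
  sSup {r : ℝ | ∃ x y : X, ‖x‖ = 1 ∧ ‖y‖ = 1 ∧ QO y x ∧ r = ‖x + ε • y‖}

/-- Milman's modulus `β⁻` -/
noncomputable def betaM (ε : ℝ) : ℝ :=
  sInf {r : ℝ | ∃ x y : X, ‖x‖ = 1 ∧ ‖y‖ = 1 ∧ r = max ‖x + ε • y‖ ‖x - ε • y‖ - 1}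

/-- Milman's modulus `β⁺` -/
noncomputable def betaP (ε : ℝ) : ℝ :=
  sSup {r : ℝ | ∃ x y : X, ‖x‖ = 1 ∧ ‖y‖ = 1 ∧ r = min ‖x + ε • y‖ ‖x - ε • y‖ - 1}

end Pool.Agent.R279.Mil
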