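import Mathlib
import Pool.Agent.R279.Mil.Defs

set_option autoImplicit false

open Set

namespace Pool.Agent.R279.Mil

/-! ## the hexagonal plane -/

/-- the plane `v₀ + v₁ + v₂ = 0` in `ℓ_∞³` -/
def Hex : Submodule ℝ (Fin 3 → ℝ) where
  carrier := {v | v 0 + v 1 + v 2 = 0}
  add_mem' := by
    intro a b ha hb
    simp only [mem_ofPred_eq, Pi.add_apply] at *
    linarith
  zero_mem' := by simp
  smul_mem' := by
    intro c a ha
    simp only [mem_ofPred_eq, Pi.smul_apply, smul_eq_mul] at *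
    rw [← mul_add, ← mul_add, ha, mul_zero]

lemma hex_mem {v : Fin 3 → ℝ} : v ∈ Hex ↔ v 0 + v 1 + v 2 = 0 := Iff.rfl

lemma hex_coord (v : Hex) (i : Fin 3) : |v.1 i| ≤ ‖v‖ := norm_le_pi_norm v.1 i

lemma hex_exists (v : Hex) : ∃ i, ‖v‖ = |v.1 i| := by
  obtain ⟨i, hi⟩ := Finite.exists_max (fun i => |v.1 i|)
  refine ⟨i, le_antisymm ?_ (hex_coord v i)⟩
  exact (pi_norm_le_iff_of_nonneg (abs_nonneg _)).mpr hi

lemma hex_norm_le (v : Hex) {r : ℝ} (hr : 0 ≤ r) (h : ∀ i, |v.1 i| ≤ r) : ‖v‖ ≤ r :=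
  (pi_norm_le_iff_of_nonneg hr).mpr h

lemma hex_finrank : Module.finrank ℝ Hex = 2 := by
  let e : Hex ≃ₗ[ℝ] (Fin 2 → ℝ) :=
    { toFun := fun v => ![v.1 0, v.1 1]
      map_add' := fun v w => by
        funext i; fin_cases i <;> simp
      map_smul' := fun c v => by
        funext i; fin_cases i <;> simp
      invFun := fun w => ⟨![w 0, w 1, -w 0 - w 1], by
        rw [hex_mem]; simp⟩
      left_inv := fun v => by
        apply Subtype.ext
        funext i
        have h := hex_mem.mp v.2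
        fin_cases i
        · simp
        · simp
        · simp; linarith
      right_inv := fun w => by
        funext i; fin_cases i <;> simp }
  rw [e.finrank_eq]; simp

/-- the key inequality -/
lemma hex_ineq {ε c : ℝ} (hc1 : c ≤ 1/4) (hc2 : c ≤ ε / 4) (x u : Fin 3 → ℝ)
    (hx : x 0 + x 1 + x 2 = 0) (hu : u 0 + u 1 + u 2 = 0) (hx1 : ∀ i, |x i| ≤ 1) (hu1 : ∀ i, |u i| ≤ ε)
    (i j : Fin 3) (hi : 1 + ε - c < |x i + u i|) (hj : 1 + ε - c < |x j - u j|) : False := by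
  have a0 := abs_le.mp (hx1 0)
  have a1 := abs_le.mp (hx1 1)
  have a2 := abs_le.mp (hx1 2)
  have b0 := abs_le.mp (hu1 0)
  have b1 := abs_le.mp (hu1 1)
  have b2 := abs_le.mp (hu1 2)
  rcases lt_abs.mp hi with h1 | h1 <;> rcases lt_abs.mp hj with h2 | h2 <;>
    fin_cases i <;> fin_cases j <;> simp at h1 h2 <;> linarith [a0.1, a0.2, a1.1, a1.2, a2.1, a2.2, b0.1, b0.2, b1.1, b1.2, b2.1, b2.2]

lemma hex_beta {ε : ℝ} (hε : 0 < ε) : betaP Hex ε ≤ ε - min 1 ε / 4 := by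
  refine csSup_le ?_ ?_
  · have hn : ‖(⟨![1, -1, 0], by rw [hex_mem]; simp⟩ : Hex)‖ = 1 := by
      refine le_antisymm (hex_norm_le _ zero_le_one fun i => ?_) ?_
      · fin_cases i <;> simp
      · have := hex_coord (⟨![1, -1, 0], by rw [hex_mem]; simp⟩ : Hex) 0
        simpa using this
    exact ⟨_, _, _, hn, hn, rfl⟩
  · rintro r ⟨x, y, hx, hy, rfl⟩
    by_contra hcon
    push Not at hcon
    set c := min 1 ε / 4 with hc
    have hc1 : c ≤ 1/4 := by have := min_le_left 1 ε; rw [hc]; linarith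
    have hc2 : c ≤ ε / 4 := by have := min_le_right 1 ε; rw [hc]; linarith
    have h1 : 1 + ε - c < ‖x + ε • y‖ := by
      have := min_le_left ‖x + ε • y‖ ‖x - ε • y‖
      linarith
    have h2 : 1 + ε - c < ‖x - ε • y‖ := by
      have := min_le_right ‖x + ε • y‖ ‖x - ε • y‖
      linarith
    obtain ⟨i, hi⟩ := hex_exists (x + ε • y)
    obtain ⟨j, hj⟩ := hex_exists (x - ε • y)
    rw [hi] at h1
    rw [hj] at h2
    refine hex_ineq hc1 hc2 x.1 (fun i => ε * y.1 i) (hex_mem.mp x.2) ?_ (fun i => ?_) (fun i => ?_) i j h1 h2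
    · have := hex_mem.mp y.2
      rw [← mul_add, ← mul_add, this, mul_zero]
    · rw [← hx]; exact hex_coord x i
    · rw [abs_mul, abs_of_pos hε]
      have := hex_coord y i
      rw [hy] at this
      exact mul_le_of_le_one_right hε.le this

lemma hex_zeta {ε : ℝ} (hε : 0 < ε) : 1 + ε ≤ zetaP Hex ε := by
  have hx : ‖(⟨![1, 0, -1], by rw [hex_mem]; simp⟩ : Hex)‖ = 1 := by
    refine le_antisymm (hex_norm_le _ zero_le_one fun i => ?_) ?_
    · fin_cases i <;> simp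
    · have := hex_coord (⟨![1, 0, -1], by rw [hex_mem]; simp⟩ : Hex) 0
      simpa using this
  have hy : ‖(⟨![1, -1, 0], by rw [hex_mem]; simp⟩ : Hex)‖ = 1 := by
    refine le_antisymm (hex_norm_le _ zero_le_one fun i => ?_) ?_
    · fin_cases i <;> simp
    · have := hex_coord (⟨![1, -1, 0], by rw [hex_mem]; simp⟩ : Hex) 0
      simpa using this
  set x : Hex := ⟨![1, 0, -1], by rw [hex_mem]; simp⟩ with hxd
  set y : Hex := ⟨![1, -1, 0], by rw [hex_mem]; simp⟩ with hyd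
  have hbdd : BddAbove {r : ℝ | ∃ x y : Hex, ‖x‖ = 1 ∧ ‖y‖ = 1 ∧ QO y x ∧ r = ‖x + ε • y‖} := by
    refine ⟨1 + ε, ?_⟩
    rintro r ⟨x, y, hx, hy, -, rfl⟩
    refine (norm_add_le _ _).trans ?_
    rw [norm_smul, hx, hy, mul_one, Real.norm_of_nonneg hε.le]
  have hn : 1 + ε ≤ ‖x + ε • y‖ := by
    have := hex_coord (x + ε • y) 0
    refine le_trans ?_ this
    change 1 + ε ≤ |(1:ℝ) + ε * 1|
    rw [mul_one]; exact le_abs_self _
  refine hn.trans (le_csSup hbdd ⟨x, y, hx, hy, ?_, rfl⟩)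
  -- the functional
  let p0 : Hex →ₗ[ℝ] ℝ :=
    { toFun := fun v => -v.1 2
      map_add' := fun v w => by change -(v.1 2 + w.1 2) = _; ring
      map_smul' := fun c v => by change -(c * v.1 2) = c * (-v.1 2); ring }
  let p : StrongDual ℝ Hex := p0.mkContinuous 1 (fun v => by
    change ‖-v.1 2‖ ≤ _
    rw [norm_neg, one_mul]; exact hex_coord v 2)
  have hpx : p x = 1 := by change -(-1:ℝ) = 1; norm_num
  refine ⟨p, le_antisymm (LinearMap.mkContinuous_norm_le _ zero_le_one _) ?_, hpx, ?_⟩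
  · have := p.le_opNorm x
    rw [hpx, hx, mul_one, norm_one] at this
    exact this
  · change -(0:ℝ) = 0; norm_num

/-! ## truncated ellipses -/

/-- the plane `√d t = z₁` in `ℝ × ℓ₂²` with the maximum norm -/
def Tru (d : ℝ) : Submodule ℝ (ℝ × EuclideanSpace ℝ (Fin 2)) where
  carrier := {v | v.2 1 = √d * v.1}
  add_mem' := by
    intro a b ha hb
    simp only [mem_ofPred_eq] at *
    change a.2 1 + b.2 1 = √d * (a.1 + b.1)
    rw [ha, hb]; ring
  zero_mem' := by simp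
  smul_mem' := by
    intro c a ha
    simp only [mem_ofPred_eq] at *
    change c * a.2 1 = √d * (c * a.1)
    rw [ha]; ring

lemma tru_mem {d : ℝ} {v : ℝ × EuclideanSpace ℝ (Fin 2)} : v ∈ Tru d ↔ v.2 1 = √d * v.1 := Iff.rfl

/-- the point with coordinates `a`, `b` -/
noncomputable def pt (d a b : ℝ) : Tru d := ⟨(b, !₂[a, √d * b]), by rw [tru_mem]; simp⟩

lemma pt_norm {d : ℝ} (hd : 0 ≤ d) (a b : ℝ) : ‖pt d a b‖ = max |b| √(a ^ 2 + d * b ^ 2) := by
  change ‖((b, !₂[a, √d * b]) : ℝ × EuclideanSpace ℝ (Fin 2))‖ = _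
  rw [Prod.norm_def, EuclideanSpace.norm_eq]
  simp [Fin.sum_univ_two, mul_pow, Real.sq_sqrt hd]

lemma pt_surj {d : ℝ} (v : Tru d) : ∃ a b, v = pt d a b := by
  refine ⟨v.1.2 0, v.1.1, ?_⟩
  apply Subtype.ext
  refine Prod.ext rfl ?_
  have h := tru_mem.mp v.2
  ext i
  fin_cases i
  · rfl
  · exact h

lemma pt_add (d a b a' b' c : ℝ) : pt d a b + c • pt d a' b' = pt d (a + c * a') (b + c * b') := by
  apply Subtype.ext
  refine Prod.ext rfl ?_
  ext i
  fin_cases i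
  · rfl
  · change √d * b + c * (√d * b') = √d * (b + c * b')
    ring

lemma pt_sub (d a b a' b' c : ℝ) : pt d a b - c • pt d a' b' = pt d (a - c * a') (b - c * b') := by
  apply Subtype.ext
  refine Prod.ext rfl ?_
  ext i
  fin_cases i
  · rfl
  · change √d * b - c * (√d * b') = √d * (b - c * b')
    ring

lemma tru_finrank (d : ℝ) : Module.finrank ℝ (Tru d) = 2 := by
  let e : Tru d ≃ₗ[ℝ] (Fin 2 → ℝ) :=
    { toFun := fun v => ![v.1.2 0, v.1.1]
      map_add' := fun v w => by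
        funext i; fin_cases i <;> rfl
      map_smul' := fun c v => by
        funext i; fin_cases i <;> rfl
      invFun := fun w => pt d (w 0) (w 1)
      left_inv := fun v => by
        obtain ⟨a, b, rfl⟩ := pt_surj v
        rfl
      right_inv := fun w => by
        funext i; fin_cases i <;> rfl }
  rw [e.finrank_eq]; simp

lemma tru_zeta {ε : ℝ} (h0 : 0 < ε) (h2 : ε < 2) : zetaM (Tru (1 - ε ^ 2 / 4)) ε ≤ 1 := by
  set d := 1 - ε ^ 2 / 4 with hd
  have hd0 : 0 ≤ d := by rw [hd]; nlinarith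
  have hn : ∀ a : ℝ, a ^ 2 = (ε / 2) ^ 2 → ‖pt d a 1‖ = 1 := by
    intro a ha
    rw [pt_norm hd0, ha]
    have : (ε / 2) ^ 2 + d * 1 ^ 2 = 1 := by rw [hd]; ring
    rw [this]; simp
  have hy : ‖pt d 1 0‖ = 1 := by
    rw [pt_norm hd0]; simp
  have hbdd : BddBelow {r : ℝ | ∃ x y : Tru d, ‖x‖ = 1 ∧ ‖y‖ = 1 ∧ QO y x ∧ r = ‖x + ε • y‖} := by
    refine ⟨0, ?_⟩
    rintro r ⟨x, y, -, -, -, rfl⟩
    exact norm_nonneg _
  refine csInf_le hbdd ⟨pt d (-(ε / 2)) 1, pt d 1 0, hn _ (by ring), hy, ?_, ?_⟩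
  · let p0 : Tru d →ₗ[ℝ] ℝ := { toFun := fun v => v.1.1, map_add' := fun _ _ => rfl, map_smul' := fun _ _ => rfl }
    let p : StrongDual ℝ (Tru d) := p0.mkContinuous 1 (fun v => by
      rw [one_mul]; exact norm_fst_le v.1)
    have hpx : p (pt d (-(ε / 2)) 1) = 1 := rfl
    refine ⟨p, le_antisymm (LinearMap.mkContinuous_norm_le _ zero_le_one _) ?_, hpx, rfl⟩
    have := p.le_opNorm (pt d (-(ε / 2)) 1)
    rw [hpx, hn _ (by ring), mul_one, norm_one] at this
    exact this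
  · rw [pt_add]
    have e1 : -(ε / 2) + ε * 1 = ε / 2 := by ring
    have e2 : (1:ℝ) + ε * 0 = 1 := by ring
    rw [e1, e2, hn _ rfl]

lemma tru_beta {ε : ℝ} (h0 : 0 < ε) (h2 : ε < 2) : 0 < betaM (Tru (1 - ε ^ 2 / 4)) ε := by
  set d := 1 - ε ^ 2 / 4 with hd
  have hd0 : 0 < d := by rw [hd]; nlinarith
  have hfin : FiniteDimensional ℝ (Tru d) := Module.finite_of_finrank_pos (by rw [tru_finrank]; norm_num)
  have hprop : ProperSpace (Tru d) := FiniteDimensional.proper_real (Tru d)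
  set K : Set (Tru d × Tru d) := Metric.sphere 0 1 ×ˢ Metric.sphere 0 1 with hK
  have hKc : IsCompact K := (isCompact_sphere 0 1).prod (isCompact_sphere 0 1)
  have hy : ‖pt d 1 0‖ = 1 := by
    rw [pt_norm hd0.le]; simp
  have hKne : K.Nonempty := ⟨(pt d 1 0, pt d 1 0), by simp [hK, hy]⟩
  obtain ⟨z, hz, hzmin⟩ := hKc.exists_isMinOn hKne
    (f := fun z : Tru d × Tru d => max ‖z.1 + ε • z.2‖ ‖z.1 - ε • z.2‖ - 1) (by fun_prop)
  have hz1 : ‖z.1‖ = 1 := by simpa using hz.1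
  have hz2 : ‖z.2‖ = 1 := by simpa using hz.2
  set m := max ‖z.1 + ε • z.2‖ ‖z.1 - ε • z.2‖ - 1 with hm
  have hle : m ≤ betaM (Tru d) ε := by
    refine le_csInf ⟨_, z.1, z.2, hz1, hz2, rfl⟩ ?_
    rintro r ⟨x, y, hx, hy, rfl⟩
    exact hzmin (a := (x, y)) (by simp [hK, hx, hy])
  refine lt_of_lt_of_le ?_ hle
  by_contra hcon
  push Not at hcon
  have hp : ‖z.1 + ε • z.2‖ ≤ 1 := by
    have := le_max_left ‖z.1 + ε • z.2‖ ‖z.1 - ε • z.2‖
    linarith
  have hq : ‖z.1 - ε • z.2‖ ≤ 1 := by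
    have := le_max_right ‖z.1 + ε • z.2‖ ‖z.1 - ε • z.2‖
    linarith
  obtain ⟨a, b, hab⟩ := pt_surj z.1
  obtain ⟨s, t, hst⟩ := pt_surj z.2
  rw [hab] at hz1 hp hq
  rw [hst] at hz2 hp hq
  rw [pt_add, pt_norm hd0.le] at hp
  rw [pt_sub, pt_norm hd0.le] at hq
  rw [pt_norm hd0.le] at hz1 hz2
  have p1 := (le_max_left _ _).trans hp
  have p2 := (le_max_right _ _).trans hp
  have q1 := (le_max_left _ _).trans hq
  have q2 := (le_max_right _ _).trans hq
  rw [Real.sqrt_le_one] at p2 q2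
  have p1' := abs_le.mp p1
  have q1' := abs_le.mp q1
  -- sum of the quadratic inequalities
  have h3 : a ^ 2 + d * b ^ 2 + ε ^ 2 * (s ^ 2 + d * t ^ 2) ≤ 1 := by nlinarith
  rcases max_choice |b| √(a ^ 2 + d * b ^ 2) with h | h
  · rw [h] at hz1
    -- `|b| = 1`
    have hb2 : b ^ 2 = 1 := by rw [← sq_abs, hz1]; norm_num
    have ht : t = 0 := by
      rcases abs_eq (zero_le_one (α := ℝ)) |>.mp hz1 with hb | hb
      · rw [hb] at p1' q1'
        have h5 : ε * t = 0 := le_antisymm (by linarith [p1'.2]) (by linarith [q1'.2])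
        exact (mul_eq_zero.mp h5).resolve_left h0.ne'
      · rw [hb] at p1' q1'
        have h5 : ε * t = 0 := le_antisymm (by linarith [q1'.1]) (by linarith [p1'.1])
        exact (mul_eq_zero.mp h5).resolve_left h0.ne'
    rw [ht] at hz2 h3
    have hs : s ^ 2 = 1 := by
      rw [abs_zero] at hz2
      have h6 : √(s ^ 2 + d * 0 ^ 2) = 1 := by
        rcases max_choice 0 √(s ^ 2 + d * 0 ^ 2) with h7 | h7
        · rw [h7] at hz2; norm_num at hz2
        · rwa [h7] at hz2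
      have h7 : s ^ 2 + d * 0 ^ 2 = 1 := by
        rw [← Real.sqrt_eq_one]; exact h6
      linarith
    rw [hb2, hs] at h3
    have : d + ε ^ 2 ≤ 1 := by nlinarith [sq_nonneg a]
    rw [hd] at this
    nlinarith
  · rw [h, Real.sqrt_eq_one] at hz1
    have h4 : s ^ 2 + d * t ^ 2 ≤ 0 := by
      have : ε ^ 2 * (s ^ 2 + d * t ^ 2) ≤ 0 := by linarith
      by_contra hc
      push Not at hc
      have := mul_pos (pow_pos h0 2) hc
      linarith
    have hs : s = 0 := by nlinarith [sq_nonneg s, mul_nonneg hd0.le (sq_nonneg t)]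
    have ht : t = 0 := by
      have h5 : d * t ^ 2 ≤ 0 := by nlinarith [sq_nonneg s]
      have h6 : t ^ 2 = 0 := le_antisymm (by nlinarith [sq_nonneg t]) (sq_nonneg t)
      exact pow_eq_zero_iff (two_ne_zero) |>.mp h6
    rw [hs, ht] at hz2
    simp at hz2

end Pool.Agent.R279.Mil
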